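import Mathlib

set_option autoImplicit false
set_option maxRecDepth 100000

/-!
# Propagation times of minimum zero forcing sets of hypercubes: `PT(Q_6) ≥ 18 > 2^(6-2)`
-/

namespace Pool.Agent.Results.MP_d17388_co.QSix

open Finset

/-- The hypercube `Q_d`: vertices `Fin d → Bool`, adjacent iff they differ in exactly one
coordinate. -/
def Q (d : ℕ) : SimpleGraph (Fin d → Bool) where
  Adj x y := ∃! i, x i ≠ y i
  symm := ⟨by
    rintro x y ⟨i, hi, h⟩
    exact ⟨i, fun e => hi e.symm, fun j hj => h j (fun e => hj e.symm)⟩⟩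
  loopless := ⟨by
    rintro x ⟨i, hi, _⟩
    exact hi rfl⟩

section ZF

variable {V : Type} [Fintype V] [DecidableEq V] (G : SimpleGraph V)

/-- One application of the colour change rule: from the filled set `S`, a filled vertex `v` with
exactly one non-filled neighbour `w` forces `w`; the new filled set is `T`. -/
def Force (S T : Finset V) : Prop :=
  ∃ v ∈ S, ∃ w, w ∉ S ∧ G.Adj v w ∧ (∀ u, G.Adj v u → u ∉ S → u = w) ∧ T = insert w S

/-- `S` is a zero forcing set: repeated use of the rule can fill every vertex. -/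
def IsZF (S : Finset V) : Prop := Relation.ReflTransGen (Force G) S Finset.univ

/-- `S` is a minimum zero forcing set. -/
def IsMinZF (S : Finset V) : Prop := IsZF G S ∧ ∀ T, IsZF G T → S.card ≤ T.card

omit [Fintype V] [DecidableEq V] in
/-- All available forces performed simultaneously. -/
def step (S : Set V) : Set V :=
  S ∪ {w | w ∉ S ∧ ∃ v ∈ S, G.Adj v w ∧ ∀ u, G.Adj v u → u ∉ S → u = w}

omit [Fintype V] [DecidableEq V] in
/-- The sets `S^(t)`. -/
def stage (S : Set V) : ℕ → Set V
  | 0 => S
  | t + 1 => step G (stage S t)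

omit [Fintype V] [DecidableEq V] in
/-- The propagation time `pt(G, S)`. -/
noncomputable def propTime (S : Finset V) : ℕ := sInf {t | stage G (S : Set V) t = Set.univ}

/-- The set of propagation times of the minimum zero forcing sets of `G`. -/
def propTimes : Set ℕ := {k | ∃ S : Finset V, IsMinZF G S ∧ propTime G S = k}

/-- Passing from simultaneous forces to a sequence of single forces. -/
lemma chain_of_step (S : Finset V) :
    ∀ n : ℕ, ∀ T : Finset V, S ⊆ T → (T : Set V) ⊆ step G (S : Set V) → (T \ S).card = n →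
      Relation.ReflTransGen (Force G) S T := by
  intro n
  induction n with
  | zero =>
    intro T hST _ hc
    have : T \ S = ∅ := Finset.card_eq_zero.mp hc
    have h2 : T ⊆ S := Finset.sdiff_eq_empty_iff_subset.mp this
    rw [Finset.Subset.antisymm hST h2]
  | succ n ih =>
    intro T hST hT hc
    have hne : (T \ S).Nonempty := by
      rw [← Finset.card_pos]; omega
    obtain ⟨w, hw⟩ := hne
    have hwT : w ∈ T := (Finset.mem_sdiff.mp hw).1
    have hwS : w ∉ S := (Finset.mem_sdiff.mp hw).2
    have hsub : S ⊆ T.erase w := fun x hx => Finset.mem_erase.mpr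
      ⟨fun e => hwS (e ▸ hx), hST hx⟩
    have h1 : Relation.ReflTransGen (Force G) S (T.erase w) := by
      apply ih (T.erase w) hsub
      · intro x hx
        exact hT (Finset.mem_coe.mpr (Finset.mem_of_mem_erase (Finset.mem_coe.mp hx)))
      · have : (T.erase w) \ S = (T \ S).erase w := by
          ext x; simp only [Finset.mem_sdiff, Finset.mem_erase]; tauto
        rw [this, Finset.card_erase_of_mem hw, hc]; rfl
    refine h1.tail ?_
    have h2 := hT (Finset.mem_coe.mpr hwT)
    rcases h2 with h2 | h2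
    · exact absurd (Finset.mem_coe.mp h2) hwS
    · obtain ⟨_, v, hv, hadj, hu⟩ := h2
      refine ⟨v, hsub (Finset.mem_coe.mp hv), w, Finset.notMem_erase w T, hadj, ?_, ?_⟩
      · intro u hau hu'
        exact hu u hau (fun h => hu' (hsub (Finset.mem_coe.mp h)))
      · rw [Finset.insert_erase hwT]

end ZF

/-! ### The lower bound `Z(Q_d) ≥ 2^(d-1)` -/

/-- Flip coordinate `i`. -/
def flip {d : ℕ} (x : Fin d → Bool) (i : Fin d) : Fin d → Bool := Function.update x i (!x i)

lemma flip_flip_comm {d : ℕ} (x : Fin d → Bool) (i j : Fin d) :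
    flip (flip x i) j = flip (flip x j) i := by
  funext k
  unfold flip
  simp only [Function.update_apply]
  by_cases h1 : k = i <;> by_cases h2 : k = j <;> by_cases h3 : i = j <;> simp_all

lemma flip_flip_self {d : ℕ} (x : Fin d → Bool) (i : Fin d) : flip (flip x i) i = x := by
  funext k
  unfold flip
  simp only [Function.update_apply]
  by_cases h1 : k = i <;> simp_all

lemma adj_iff {d : ℕ} (x y : Fin d → Bool) : (Q d).Adj x y ↔ ∃ i, y = flip x i := by
  constructor
  · rintro ⟨i, hi, h⟩
    refine ⟨i, ?_⟩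
    funext k
    unfold flip
    by_cases hk : k = i
    · subst hk
      simp only [Function.update_self]
      revert hi
      cases x k <;> cases y k <;> simp
    · rw [Function.update_of_ne hk]
      by_contra hne
      exact hk (h k (fun e => hne e.symm))
  · rintro ⟨i, rfl⟩
    refine ⟨i, ?_, ?_⟩
    · simp [flip]
    · intro j hj
      by_contra hne
      apply hj
      simp [flip, Function.update_of_ne hne]

lemma flip_injective {d : ℕ} (x : Fin d → Bool) : Function.Injective (flip x) := by
  intro i j h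
  by_contra hne
  have := congrFun h i
  simp [flip, Function.update_of_ne hne] at this

/-- The operator `A(Q_d) + d I` over `𝔽₂`. -/
def M (d : ℕ) : ((Fin d → Bool) → ZMod 2) →ₗ[ZMod 2] ((Fin d → Bool) → ZMod 2) where
  toFun f x := ∑ i, f (flip x i) + (d : ZMod 2) * f x
  map_add' f g := by
    funext x
    simp only [Pi.add_apply, Finset.sum_add_distrib]
    ring
  map_smul' c f := by
    funext x
    simp only [Pi.smul_apply, smul_eq_mul, RingHom.id_apply, ← Finset.mul_sum]
    ring

lemma M_apply {d : ℕ} (f : (Fin d → Bool) → ZMod 2) (x : Fin d → Bool) :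
    M d f x = ∑ i, f (flip x i) + (d : ZMod 2) * f x := rfl

lemma two_zero (a : ZMod 2) : a + a = 0 := by
  revert a; decide

/-- In characteristic two a symmetric double sum equals its diagonal. -/
lemma sum_symm {n : ℕ} (a : Fin n → Fin n → ZMod 2) (h : ∀ i j, a i j = a j i) :
    ∑ i, ∑ j, a i j = ∑ i, a i i := by
  classical
  rw [← Finset.sum_product', ← Finset.sum_filter_add_sum_filter_not
    (s := Finset.univ ×ˢ Finset.univ) (p := fun p : Fin n × Fin n => p.1 = p.2)]
  have h1 : ∑ p ∈ (Finset.univ ×ˢ Finset.univ : Finset (Fin n × Fin n)).filter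
      (fun p => ¬ p.1 = p.2), a p.1 p.2 = 0 := by
    refine Finset.sum_involution (fun p _ => (p.2, p.1)) ?_ ?_ ?_ ?_
    · intro p _
      simp only
      rw [h p.2 p.1]
      exact two_zero _
    · intro p hp _ e
      have := (Finset.mem_filter.mp hp).2
      apply this
      have := congrArg Prod.fst e
      simp only at this
      exact this.symm
    · intro p hp
      have := (Finset.mem_filter.mp hp).2
      simp only [Finset.mem_filter, Finset.mem_product, Finset.mem_univ, true_and]
      exact fun e => this e.symm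
    · intro p _
      rfl
  rw [h1, add_zero]
  have h2 : (Finset.univ ×ˢ Finset.univ : Finset (Fin n × Fin n)).filter
      (fun p => p.1 = p.2) = Finset.univ.image (fun i => (i, i)) := by
    ext ⟨i, j⟩
    simp only [Finset.mem_filter, Finset.mem_product, Finset.mem_univ, true_and,
      Finset.mem_image, Prod.mk.injEq]
    constructor
    · rintro rfl
      exact ⟨i, rfl, rfl⟩
    · rintro ⟨k, rfl, rfl⟩
      rfl
  rw [h2, Finset.sum_image]
  intro i _ j _ e
  exact congrArg Prod.fst e

lemma M_sq (d : ℕ) (f : (Fin d → Bool) → ZMod 2) : M d (M d f) = 0 := by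
  funext x
  rw [M_apply]
  simp only [M_apply, Finset.sum_add_distrib, ← Finset.mul_sum]
  rw [sum_symm (fun i j => f (flip (flip x i) j)) (fun i j => by rw [flip_flip_comm])]
  simp only [flip_flip_self, Finset.sum_const, Finset.card_univ, Fintype.card_fin, nsmul_eq_mul,
    Pi.zero_apply]
  have h : ∀ (c a b : ZMod 2), c * a + c * b + c * (b + c * a) = 0 := by decide
  exact h _ _ _

/-- The kernel of `M` has dimension at least `2^(d-1)`. -/
lemma finrank_ker (d : ℕ) (hd : 1 ≤ d) :
    2 ^ (d - 1) ≤ Module.finrank (ZMod 2) (LinearMap.ker (M d)) := by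
  have h1 : LinearMap.range (M d) ≤ LinearMap.ker (M d) := by
    rintro _ ⟨f, rfl⟩
    exact M_sq d f
  have h2 := Submodule.finrank_mono h1
  have h3 := LinearMap.finrank_range_add_finrank_ker (M d)
  have h4 : Module.finrank (ZMod 2) ((Fin d → Bool) → ZMod 2) = 2 ^ d := by
    rw [Module.finrank_fintype_fun_eq_card]
    simp
  rw [h4] at h3
  obtain ⟨e, rfl⟩ : ∃ e, d = e + 1 := ⟨d - 1, by omega⟩
  simp only [Nat.add_sub_cancel] at *
  rw [pow_succ] at h3
  omega

/-- A kernel vector that vanishes on the filled vertices keeps vanishing on them. -/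
lemma vanish {d : ℕ} (f : (Fin d → Bool) → ZMod 2) (hf : M d f = 0)
    (S T : Finset (Fin d → Bool)) (h : Relation.ReflTransGen (Force (Q d)) S T)
    (hS : ∀ v ∈ S, f v = 0) : ∀ v ∈ T, f v = 0 := by
  induction h with
  | refl => exact hS
  | tail _ hst ih =>
    obtain ⟨v, hv, w, hw, hadj, hu, rfl⟩ := hst
    intro x hx
    rcases Finset.mem_insert.mp hx with rfl | hx
    · obtain ⟨i, hi⟩ := (adj_iff _ _).mp hadj
      have h1 := congrFun hf v
      rw [M_apply, ih v hv, mul_zero, add_zero, Pi.zero_apply,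
        Finset.sum_eq_single i ?_ ?_] at h1
      · rw [hi]; exact h1
      · intro j _ hj
        by_contra hne
        have h2 : flip v j = x := hu (flip v j) ((adj_iff _ _).mpr ⟨j, rfl⟩)
          (fun hm => hne (ih _ hm))
        rw [hi] at h2
        exact hj (flip_injective v h2)
      · intro hni
        exact absurd (Finset.mem_univ i) hni
    · exact ih x hx

/-- `Z(Q_d) ≥ 2^(d-1)`. -/
theorem zf_lower (d : ℕ) (hd : 1 ≤ d) (T : Finset (Fin d → Bool)) (hT : IsZF (Q d) T) :
    2 ^ (d - 1) ≤ T.card := by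
  refine (finrank_ker d hd).trans ?_
  let R : LinearMap.ker (M d) →ₗ[ZMod 2] (T → ZMod 2) :=
    { toFun := fun f v => f.1 v.1
      map_add' := fun _ _ => rfl
      map_smul' := fun _ _ => rfl }
  have hinj : Function.Injective R := by
    rw [← LinearMap.ker_eq_bot, LinearMap.ker_eq_bot']
    intro f hf
    have h1 : ∀ v ∈ T, f.1 v = 0 := fun v hv => congrFun hf ⟨v, hv⟩
    have h2 := vanish f.1 f.2 T Finset.univ hT h1
    apply Subtype.ext
    funext v
    exact h2 v (Finset.mem_univ v)
  have h := LinearMap.finrank_le_finrank_of_injective hinj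
  rw [Module.finrank_fintype_fun_eq_card, Fintype.card_coe] at h
  exact h

/-! ### The example in `Q_6` -/

/-- Binary code of a vertex of `Q_6`. -/
def code (v : Fin 6 → Bool) : ℕ :=
  (v 0).toNat + 2 * (v 1).toNat + 4 * (v 2).toNat + 8 * (v 3).toNat + 16 * (v 4).toNat
    + 32 * (v 5).toNat

/-- Membership in the set coded by a bit mask. -/
def mem (m : ℕ) (v : Fin 6 → Bool) : Bool := m.testBit (code v)

/-- The sets `S^(0), ..., S^(18)` as bit masks. -/
def masks : List ℕ :=
  [0x8f6b95c04b7b51d, 0x8f6b95c04b7b55d, 0x8f6b95c04b7b57d, 0x8f6b95c24b7b57d, 0x8f6b95c24b7b77d,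
   0x8f6b95c25b7b77d, 0x8f7b95c25b7b77d, 0x18f7b95c25b7b77d, 0x18f7f95c25b7b77d,
   0x18f7f9dc25b7b77d, 0x98f7f9dc25b7b77d, 0x98fff9dc25b7b77d, 0x9cfff9de25bfb77d,
   0x9efff9de2dffb77d, 0xdefff9de7dffb77d, 0xdefff9de7dfff77d, 0xdefffddefdfff7fd,
   0xfffffdfffdfffffd, 0xffffffffffffffff]

/-- The set coded by a bit mask. -/
def maskSet (m : ℕ) : Finset (Fin 6 → Bool) := Finset.univ.filter (fun v => mem m v = true)

/-- One simultaneous step, in terms of masks. -/
def StepOK (m m' : ℕ) : Prop :=
  ∀ w : Fin 6 → Bool, mem m' w = true ↔ (mem m w = true ∨ ∃ i : Fin 6, mem m (flip w i) = true ∧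
    ∀ j : Fin 6, mem m (flip (flip w i) j) = false → flip (flip w i) j = w)

instance (m m' : ℕ) : Decidable (StepOK m m') := by unfold StepOK; infer_instance

lemma step_mask (m m' : ℕ) (h : StepOK m m') :
    step (Q 6) (maskSet m : Set (Fin 6 → Bool)) = (maskSet m' : Set (Fin 6 → Bool)) := by
  ext w
  have hw := h w
  have hcoe : ∀ (a : ℕ) (x : Fin 6 → Bool),
      x ∈ (maskSet a : Set (Fin 6 → Bool)) ↔ mem a x = true := by
    intro a x
    simp [maskSet]
  rw [hcoe, hw]
  unfold step
  constructor
  · rintro (h1 | ⟨_, v, hv, hadj, hu⟩)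
    · exact Or.inl ((hcoe _ _).mp h1)
    · right
      obtain ⟨i, hi⟩ := (adj_iff _ _).mp hadj
      have hv' : v = flip w i := by rw [hi, flip_flip_self]
      refine ⟨i, ?_, ?_⟩
      · rw [← hv']; exact (hcoe _ _).mp hv
      · intro j hj
        rw [← hv']
        apply hu
        · exact (adj_iff _ _).mpr ⟨j, rfl⟩
        · rw [hcoe, hv']
          simp [hj]
  · rintro (h1 | ⟨i, h1, h2⟩)
    · exact Or.inl ((hcoe _ _).mpr h1)
    · by_cases hwS : w ∈ (maskSet m : Set (Fin 6 → Bool))
      · exact Or.inl hwS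
      · refine Or.inr ⟨hwS, flip w i, (hcoe _ _).mpr h1, ?_, ?_⟩
        · exact (adj_iff _ _).mpr ⟨i, (flip_flip_self w i).symm⟩
        · intro u hu hu'
          obtain ⟨j, rfl⟩ := (adj_iff _ _).mp hu
          apply h2 j
          rw [hcoe] at hu'
          simpa using hu'

lemma steps : ∀ t : Fin 18, StepOK (masks.getD t 0) (masks.getD (t + 1) 0) := by
  decide +kernel

lemma full : maskSet (masks.getD 18 0) = Finset.univ := by
  decide +kernel

lemma notFull : ∀ t : Fin 18, ∃ v : Fin 6 → Bool, mem (masks.getD t 0) v = false := by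
  decide +kernel

lemma card32 : (maskSet (masks.getD 0 0)).card = 32 := by
  decide +kernel

lemma stage_mask (t : ℕ) (ht : t ≤ 18) :
    stage (Q 6) (maskSet (masks.getD 0 0) : Set (Fin 6 → Bool)) t
      = (maskSet (masks.getD t 0) : Set (Fin 6 → Bool)) := by
  induction t with
  | zero => rfl
  | succ t ih =>
    rw [stage, ih (by omega)]
    exact step_mask _ _ (steps ⟨t, by omega⟩)

/-- The example. -/
def S₀ : Finset (Fin 6 → Bool) := maskSet (masks.getD 0 0)

lemma S₀_zf : IsZF (Q 6) S₀ := by
  have key : ∀ t : ℕ, t ≤ 18 →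
      Relation.ReflTransGen (Force (Q 6)) S₀ (maskSet (masks.getD t 0)) := by
    intro t
    induction t with
    | zero => intro _; exact Relation.ReflTransGen.refl
    | succ t ih =>
      intro ht
      refine (ih (by omega)).trans ?_
      have hs := step_mask _ _ (steps ⟨t, by omega⟩)
      apply chain_of_step (Q 6) _ _ _ _ _ rfl
      · intro x hx
        have : x ∈ step (Q 6) (maskSet (masks.getD t 0) : Set (Fin 6 → Bool)) :=
          Or.inl (Finset.mem_coe.mpr hx)
        rw [hs] at this
        exact Finset.mem_coe.mp this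
      · exact hs.ge
  have h := key 18 le_rfl
  rw [full] at h
  exact h

lemma S₀_min : IsMinZF (Q 6) S₀ := by
  refine ⟨S₀_zf, fun T hT => ?_⟩
  have h1 := zf_lower 6 (by norm_num) T hT
  have h2 : S₀.card = 32 := card32
  rw [h2]
  exact h1

lemma S₀_time : propTime (Q 6) S₀ = 18 := by
  unfold propTime
  have hmem : (18 : ℕ) ∈ {t | stage (Q 6) (S₀ : Set (Fin 6 → Bool)) t = Set.univ} := by
    show stage (Q 6) (S₀ : Set (Fin 6 → Bool)) 18 = Set.univ
    unfold S₀
    rw [stage_mask 18 le_rfl, full, Finset.coe_univ]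
  apply le_antisymm (Nat.sInf_le hmem)
  apply le_csInf ⟨18, hmem⟩
  intro t ht
  by_contra hlt
  push Not at hlt
  have h1 : stage (Q 6) (S₀ : Set (Fin 6 → Bool)) t = Set.univ := ht
  unfold S₀ at h1
  rw [stage_mask t (by omega)] at h1
  obtain ⟨v, hv⟩ := notFull ⟨t, hlt⟩
  have h2 : v ∈ (maskSet (masks.getD t 0) : Set (Fin 6 → Bool)) := by
    rw [h1]; exact Set.mem_univ v
  rw [Finset.mem_coe] at h2
  have h3 : mem (masks.getD t 0) v = true := (Finset.mem_filter.mp h2).2
  rw [h3] at hv
  exact absurd hv (by decide)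

/-- `Q_6` has a minimum zero forcing set with propagation time `18 > 2^(6-2)`. Hence it is false
that `pt(Q_d) = 1`, `PT(Q_d) = 2^(d-2)` and `Q_d` has a full propagation time interval for all
`d ≥ 2`; already `PT(Q_6) ≠ 2^(6-2)`. -/
theorem result :
    18 ∈ propTimes (Q 6) ∧ ¬ IsGreatest (propTimes (Q 6)) (2 ^ (6 - 2)) ∧
    ¬ ∀ d : ℕ, 2 ≤ d → IsLeast (propTimes (Q d)) 1 ∧ IsGreatest (propTimes (Q d)) (2 ^ (d - 2)) ∧
      ∀ k : ℕ, 1 ≤ k → k ≤ 2 ^ (d - 2) → k ∈ propTimes (Q d) := by
  have h18 : 18 ∈ propTimes (Q 6) := ⟨S₀, S₀_min, S₀_time⟩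
  have hno : ¬ IsGreatest (propTimes (Q 6)) (2 ^ (6 - 2)) := by
    intro h
    have := h.2 h18
    norm_num at this
  exact ⟨h18, hno, fun h => hno (h 6 (by norm_num)).2.1⟩

end Pool.Agent.Results.MP_d17388_co.QSix
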